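import Pool.Agent.Helper42.FR.Stmts

/-!
# Row UP: approximate solutions from the Følner sets and the local permutation
-/

set_option autoImplicit false

namespace Pool.Agent.Helper22.FR

open Matrix Pool.Agent.Helper81.Fmr Pool.Agent.Helper42.FR

universe u

section
variable {F : Type u} [Field F] {Ω : Type} [Fintype Ω] [DecidableEq Ω]

/-- column `c` goes to `χ c` times the basis vector `σ c` -/
def mt (σ : Ω → Ω) (χ : Ω → F) : Matrix Ω Ω F := fun a c => if a = σ c then χ c else 0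

theorem mt_mul (σ τ : Ω → Ω) (χ ψ : Ω → F) (a c : Ω) :
    (mt σ χ * mt τ ψ) a c = if a = σ (τ c) then χ (τ c) * ψ c else 0 := by
  rw [Matrix.mul_apply, Finset.sum_eq_single (τ c)]
  · unfold mt
    split_ifs <;> simp_all
  · intro j _ hj
    unfold mt
    rw [if_neg hj, mul_zero]
  · intro h
    exact absurd (Finset.mem_univ _) h

theorem mt_one : mt (fun c => c) (fun _ => 1) = (1 : Matrix Ω Ω F) := by
  ext a c
  unfold mt
  rw [Matrix.one_apply]

theorem mt_zero (σ : Ω → Ω) : mt σ (fun _ => 0) = (0 : Matrix Ω Ω F) := by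
  ext a c
  unfold mt
  simp

end

section
variable {G Y : Type} [Fintype G] [DecidableEq G] [Fintype Y] [DecidableEq Y] {q : ℕ}

/-- action of a permutation of the pairs -/
def hop (s : Equiv.Perm G) (x : G → Y) (K : Equiv.Perm (Fin q × Fin q))
    (c : G × (Y → Fin q)) : G × (Y → Fin q) :=
  if x c.1 = x (s c.1) then c else
    (c.1, Function.update (Function.update c.2 (x c.1) (K (c.2 (x c.1), c.2 (x (s c.1)))).1)
      (x (s c.1)) (K (c.2 (x c.1), c.2 (x (s c.1)))).2)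

theorem hop_fst (s : Equiv.Perm G) (x : G → Y) (K : Equiv.Perm (Fin q × Fin q))
    (c : G × (Y → Fin q)) : (hop s x K c).1 = c.1 := by
  unfold hop
  split_ifs <;> rfl

theorem hop_pair (s : Equiv.Perm G) (x : G → Y) (K : Equiv.Perm (Fin q × Fin q))
    (c : G × (Y → Fin q)) (h : x c.1 ≠ x (s c.1)) :
    ((hop s x K c).2 (x c.1), (hop s x K c).2 (x (s c.1))) =
      K (c.2 (x c.1), c.2 (x (s c.1))) := by
  unfold hop
  rw [if_neg h]
  simp only [Function.update_self, ne_eq, h, not_false_eq_true, Function.update_of_ne]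

theorem hop_other (s : Equiv.Perm G) (x : G → Y) (K : Equiv.Perm (Fin q × Fin q))
    (c : G × (Y → Fin q)) {w : Y} (h1 : w ≠ x c.1) (h2 : w ≠ x (s c.1)) :
    (hop s x K c).2 w = c.2 w := by
  unfold hop
  split_ifs with h
  · rfl
  · simp only [ne_eq, h2, not_false_eq_true, Function.update_of_ne, h1]

theorem hop_mul (s : Equiv.Perm G) (x : G → Y) (K L : Equiv.Perm (Fin q × Fin q))
    (c : G × (Y → Fin q)) : hop s x K (hop s x L c) = hop s x (K * L) c := by
  by_cases h : x c.1 = x (s c.1)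
  · have h1 : ∀ K' : Equiv.Perm (Fin q × Fin q), hop s x K' c = c := fun K' => by
      unfold hop
      rw [if_pos h]
    rw [h1 L, h1 K, h1]
  · refine Prod.ext (by rw [hop_fst, hop_fst, hop_fst]) ?_
    funext w
    have h1 := hop_pair s x (K * L) c h
    have h2 := hop_pair s x L c h
    have h3 := hop_pair s x K (hop s x L c) (by rw [hop_fst]; exact h)
    rw [hop_fst] at h3
    rw [h2, ← Equiv.Perm.mul_apply, ← h1] at h3
    by_cases w1 : w = x c.1
    · rw [w1]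
      exact (Prod.ext_iff.1 h3).1
    by_cases w2 : w = x (s c.1)
    · rw [w2]
      exact (Prod.ext_iff.1 h3).2
    rw [hop_other s x (K * L) c w1 w2, hop_other s x K _ (by rw [hop_fst]; exact w1)
      (by rw [hop_fst]; exact w2), hop_other s x L c w1 w2]

theorem hop_one (s : Equiv.Perm G) (x : G → Y) (c : G × (Y → Fin q)) :
    hop s x (1 : Equiv.Perm (Fin q × Fin q)) c = c := by
  unfold hop
  split_ifs with h
  · rfl
  · simp

theorem hop_inv (s : Equiv.Perm G) (x : G → Y) (K : Equiv.Perm (Fin q × Fin q))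
    (c : G × (Y → Fin q)) : hop s x K (hop s x K⁻¹ c) = c := by
  rw [hop_mul, mul_inv_cancel, hop_one]

theorem hop_inv' (s : Equiv.Perm G) (x : G → Y) (K : Equiv.Perm (Fin q × Fin q))
    (c : G × (Y → Fin q)) : hop s x K⁻¹ (hop s x K c) = c := by
  rw [hop_mul, inv_mul_cancel, hop_one]

/-- counting: one coordinate -/
theorem cnt1 (a : Y) (k : ℕ) (hk : k ≤ q) :
    (Finset.univ.filter fun y : Y → Fin q => (y a : ℕ) < k).card * q ≤
      k * Fintype.card (Y → Fin q) := by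
  classical
  have h1 : ((Finset.univ.filter fun y : Y → Fin q => (y a : ℕ) < k) ×ˢ
      (Finset.univ : Finset (Fin q))).card ≤
      ((Finset.range k) ×ˢ (Finset.univ : Finset (Y → Fin q))).card := by
    refine Finset.card_le_card_of_injOn (fun p => ((p.1 a : ℕ), Function.update p.1 a p.2))
      ?_ ?_
    · intro p hp
      simp only [Finset.coe_product, Set.mem_prod, Finset.mem_coe, Finset.mem_filter,
        Finset.mem_univ, true_and, and_true] at hp
      simp only [Finset.coe_product, Set.mem_prod, Finset.mem_coe, Finset.mem_range,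
        Finset.mem_univ, and_true]
      exact hp
    · intro p _ p' _ h
      simp only [Prod.mk.injEq] at h
      obtain ⟨h2, h3⟩ := h
      have h4 : p.2 = p'.2 := by
        have := congrFun h3 a
        simpa using this
      refine Prod.ext ?_ h4
      funext w
      by_cases hw : w = a
      · rw [hw]
        exact Fin.ext h2
      · have := congrFun h3 w
        simpa [hw] using this
  rw [Finset.card_product, Finset.card_product, Finset.card_univ, Fintype.card_fin,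
    Finset.card_range, Finset.card_univ] at h1
  exact h1

/-- counting: two coordinates -/
theorem cnt2 (a b : Y) (hab : a ≠ b) (B : Finset (Fin q × Fin q)) :
    (Finset.univ.filter fun y : Y → Fin q => (y a, y b) ∈ B).card * (q * q) ≤
      B.card * Fintype.card (Y → Fin q) := by
  classical
  have h1 : ((Finset.univ.filter fun y : Y → Fin q => (y a, y b) ∈ B) ×ˢ
      (Finset.univ : Finset (Fin q × Fin q))).card ≤
      (B ×ˢ (Finset.univ : Finset (Y → Fin q))).card := by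
    refine Finset.card_le_card_of_injOn (fun p => ((p.1 a, p.1 b),
      Function.update (Function.update p.1 a p.2.1) b p.2.2)) ?_ ?_
    · intro p hp
      simp only [Finset.coe_product, Set.mem_prod, Finset.mem_coe, Finset.mem_filter,
        Finset.mem_univ, true_and, and_true] at hp
      simp only [Finset.coe_product, Set.mem_prod, Finset.mem_coe, Finset.mem_univ, and_true]
      exact hp
    · intro p _ p' _ h
      simp only [Prod.mk.injEq] at h
      obtain ⟨⟨h2, h2'⟩, h3⟩ := h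
      have h4 : p.2.2 = p'.2.2 := by
        have := congrFun h3 b
        simpa using this
      have h5 : p.2.1 = p'.2.1 := by
        have := congrFun h3 a
        simpa [hab] using this
      refine Prod.ext ?_ (Prod.ext h5 h4)
      funext w
      by_cases hw : w = a
      · rw [hw]
        exact h2
      by_cases hw' : w = b
      · rw [hw']
        exact h2'
      have := congrFun h3 w
      simpa [hw, hw'] using this
  rw [Finset.card_product, Finset.card_product, Finset.card_univ, Fintype.card_prod,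
    Fintype.card_fin, Finset.card_univ] at h1
  exact h1

end

section
variable {F : Type u} [Field F] {Ω : Type} [Fintype Ω] [DecidableEq Ω]

/-- the permutations -/
def sg (fs fs' ft ft' fk fh fh' : Ω → Ω) : Vr → Ω → Ω
  | .s => fs
  | .s' => fs'
  | .t => ft
  | .t' => ft'
  | .h => fh
  | .h' => fh'
  | .k => fk
  | .se => fs
  | .es => fs
  | .ts => fun c => ft (fs c)
  | .sk => fun c => fs (fk c)
  | .st => fun c => fs (ft c)
  | .kst => fun c => fk (fs (ft c))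
  | .hst => fun c => fh (fs (ft c))
  | .est => fun c => fs (ft c)
  | .te1 => ft
  | .ke1 => fk
  | .he1 => fh
  | .hE _ => fh
  | .hG _ => fh
  | _ => fun c => c

/-- the coefficients of the idempotents -/
def cE (fs fh' : Ω → Ω) (ce : Ω → F) (i : Fin 5) (c : Ω) : F :=
  (![ce c, ce (fh' c), ce (fh' (fh' c)), ce (fh' (fh' (fh' c))),
    ce (fh' (fh' (fh' (fh' c)))) * ce (fs (fh' (fh' (fh' (fh' c)))))] : Fin 5 → F) i

def cG (fs fh' : Ω → Ω) (ce : Ω → F) (i : Fin 4) (c : Ω) : F :=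
  (![ce c * ce (fs c), ce (fh' c) * ce (fs (fh' c)),
    ce (fh' (fh' c)) * ce (fs (fh' (fh' c))),
    ce (fh' (fh' (fh' c))) * ce (fs (fh' (fh' (fh' c))))] : Fin 4 → F) i

/-- the coefficients -/
def ch (fs fs' fh' : Ω → Ω) (ce : Ω → F) : Vr → Ω → F
  | .zero => fun _ => 0
  | .e => ce
  | .e1 => fun c => ce (fs' c)
  | .em => fun c => ce (fs c)
  | .se => ce
  | .es => fun c => ce (fs c)
  | .est => ce
  | .te1 => fun c => ce (fs' c)
  | .ke1 => fun c => ce (fs' c)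
  | .he1 => fun c => ce (fs' c)
  | .ee1 => fun c => ce c * ce (fs' c)
  | .q => cG fs fh' ce 0
  | .E i => cE fs fh' ce i
  | .G i => cG fs fh' ce i.succ
  | .hE i => cE fs fh' ce i.castSucc.castSucc
  | .hG i => cG fs fh' ce i
  | .n i => fun c => cE fs fh' ce i c - 1
  | .p i => fun c => (![(cE fs fh' ce 0 c - 1) * (cE fs fh' ce 1 c - 1),
      (cE fs fh' ce 0 c - 1) * (cE fs fh' ce 1 c - 1) * (cE fs fh' ce 2 c - 1),
      (cE fs fh' ce 0 c - 1) * (cE fs fh' ce 1 c - 1) * (cE fs fh' ce 2 c - 1) *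
        (cE fs fh' ce 3 c - 1)] : Fin 3 → F) i
  | _ => fun _ => 1

theorem rel_all (fs fs' ft ft' fk fh fh' : Ω → Ω) (ce : Ω → F) (c : Ω)
    (a1 : ∀ c, fs (fs' c) = c) (a2 : ∀ c, fs' (fs c) = c) (a3 : ∀ c, ft (ft' c) = c)
    (a4 : ∀ c, ft' (ft c) = c) (a5 : ∀ c, fh (fh' c) = c) (a6 : ∀ c, fh' (fh c) = c)
    (a7 : ∀ c, ce c * ce c = ce c) (a8 : ∀ c, fs (fk (ft c)) = ft (fs c))
    (b1 : fs (ft (fk c)) = fk (fs (ft c))) (b2 : fs (ft (fh c)) = fh (fs (ft c)))
    (b3 : ce (fs (ft c)) = ce c) (b4 : ce (fs' (ft c)) = ce (fs' c))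
    (b5 : ce (fs' (fk c)) = ce (fs' c)) (b6 : ce (fs' (fh c)) = ce (fs' c))
    (b7 : ∀ i j, i ≠ j → cE fs fh' ce i c * cE fs fh' ce j c = 0)
    (b8 : (cE fs fh' ce 0 c - 1) * (cE fs fh' ce 1 c - 1) * (cE fs fh' ce 2 c - 1) *
      (cE fs fh' ce 3 c - 1) * (cE fs fh' ce 4 c - 1) = 0) :
    ∀ p ∈ pr, sg fs fs' ft ft' fk fh fh' p.1 (sg fs fs' ft ft' fk fh fh' p.2.1 c) =
      sg fs fs' ft ft' fk fh fh' p.2.2 c ∧
      ch fs fs' fh' ce p.1 (sg fs fs' ft ft' fk fh fh' p.2.1 c) * ch fs fs' fh' ce p.2.1 c =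
      ch fs fs' fh' ce p.2.2 c := by
  have c1 := b7 0 1 (by decide)
  have c2 := b7 0 2 (by decide)
  have c3 := b7 0 3 (by decide)
  have c4 := b7 0 4 (by decide)
  have c5 := b7 1 0 (by decide)
  have c6 := b7 1 2 (by decide)
  have c7 := b7 1 3 (by decide)
  have c8 := b7 1 4 (by decide)
  have c9 := b7 2 0 (by decide)
  have d1 := b7 2 1 (by decide)
  have d2 := b7 2 3 (by decide)
  have d3 := b7 2 4 (by decide)
  have d4 := b7 3 0 (by decide)
  have d5 := b7 3 1 (by decide)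
  have d6 := b7 3 2 (by decide)
  have d7 := b7 3 4 (by decide)
  have d8 := b7 4 0 (by decide)
  have d9 := b7 4 1 (by decide)
  have d10 := b7 4 2 (by decide)
  have d11 := b7 4 3 (by decide)
  unfold pr
  simp only [List.forall_mem_cons, List.not_mem_nil, false_imp_iff, implies_true, and_true]
  refine ⟨⟨a1 c, ?_⟩, ⟨a2 c, ?_⟩, ⟨a3 c, ?_⟩, ⟨a4 c, ?_⟩, ⟨a5 c, ?_⟩,
    ⟨a6 c, ?_⟩, ⟨rfl, a7 c⟩, ⟨rfl, ?_⟩, ⟨rfl, ?_⟩, ⟨rfl, ?_⟩, ⟨rfl, ?_⟩,
    ⟨rfl, ?_⟩, ⟨rfl, ?_⟩, ⟨a8 c, ?_⟩, ⟨rfl, ?_⟩, ⟨rfl, ?_⟩, ⟨b1, ?_⟩,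
    ⟨rfl, ?_⟩, ⟨b2, ?_⟩, ⟨rfl, ?_⟩, ⟨rfl, ?_⟩,
    ⟨rfl, ?_⟩, ⟨rfl, ?_⟩, ⟨rfl, ?_⟩, ⟨rfl, ?_⟩, ⟨rfl, ?_⟩, ⟨rfl, ?_⟩,
    ⟨rfl, ?_⟩, ⟨rfl, ?_⟩, ⟨rfl, ?_⟩, ⟨rfl, ?_⟩,
    ⟨rfl, ?_⟩, ⟨rfl, ?_⟩, ⟨rfl, ?_⟩, ⟨rfl, ?_⟩,
    ⟨rfl, ?_⟩, ⟨rfl, ?_⟩, ⟨rfl, ?_⟩, ⟨rfl, ?_⟩,
    ⟨rfl, ?_⟩, ⟨rfl, ?_⟩, ⟨rfl, ?_⟩, ⟨rfl, ?_⟩,
    ⟨rfl, ?_⟩, ⟨rfl, ?_⟩,
    ⟨rfl, c1⟩, ⟨rfl, c2⟩, ⟨rfl, c3⟩, ⟨rfl, c4⟩,
    ⟨rfl, c5⟩, ⟨rfl, c6⟩, ⟨rfl, c7⟩, ⟨rfl, c8⟩,
    ⟨rfl, c9⟩, ⟨rfl, d1⟩, ⟨rfl, d2⟩, ⟨rfl, d3⟩,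
    ⟨rfl, d4⟩, ⟨rfl, d5⟩, ⟨rfl, d6⟩, ⟨rfl, d7⟩,
    ⟨rfl, d8⟩, ⟨rfl, d9⟩, ⟨rfl, d10⟩, ⟨rfl, d11⟩,
    ⟨rfl, rfl⟩, ⟨rfl, rfl⟩, ⟨rfl, rfl⟩, ⟨rfl, b8⟩⟩
  all_goals
    simp [ch, sg, cE, cG, a1, a2, a3, a4, a5, a6, b3, b4, b5, b6, mul_comm]

end

theorem card_prod {G W : Type} [Fintype G] [Fintype W] (P : G × W → Prop) [DecidablePred P] :
    (Finset.univ.filter P).card = ∑ g : G, (Finset.univ.filter fun w : W => P (g, w)).card := by
  simp only [Finset.card_filter, Fintype.sum_prod_type]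

section
variable {F : Type u} [Field F] {G Y : Type} [Fintype G] [DecidableEq G] [Fintype Y]
  [DecidableEq Y] {q : ℕ}

theorem cE_eq (s : Equiv.Perm G) (x : G → Y) (H : Equiv.Perm (Fin q × Fin q))
    (A : Fin 5 → Finset (Fin q × Fin q)) (k : ℕ)
    (hA0 : ∀ y, y ∈ A 0 ↔ (y.1 : ℕ) < k) (hA1 : ∀ y, H y ∈ A 1 ↔ y ∈ A 0)
    (hA2 : ∀ y, H y ∈ A 2 ↔ y ∈ A 1) (hA3 : ∀ y, H y ∈ A 3 ↔ y ∈ A 2)
    (hA4 : ∀ y, H (H (H (H y))) ∈ A 4 ↔ ((y.1 : ℕ) < k ∧ (y.2 : ℕ) < k))
    (c : G × (Y → Fin q)) (hc : x c.1 ≠ x (s c.1)) (i : Fin 5) :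
    cE (fun c : G × (Y → Fin q) => (s c.1, c.2)) (hop s x H⁻¹)
      (fun c => if (c.2 (x c.1) : ℕ) < k then (1 : F) else 0) i c =
      if (c.2 (x c.1), c.2 (x (s c.1))) ∈ A i then 1 else 0 := by
  have hf1 : ∀ c : G × (Y → Fin q), (hop s x H⁻¹ c).1 = c.1 := fun c => hop_fst s x H⁻¹ c
  have hP : ∀ c : G × (Y → Fin q), x c.1 ≠ x (s c.1) →
      ((hop s x H⁻¹ c).2 (x (hop s x H⁻¹ c).1), (hop s x H⁻¹ c).2 (x (s (hop s x H⁻¹ c).1))) =
        H⁻¹ (c.2 (x c.1), c.2 (x (s c.1))) := fun c hc => by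
    rw [hf1]
    exact hop_pair s x H⁻¹ c hc
  have hinv : ∀ z, H (H⁻¹ z) = z := fun z => by simp
  have g1 : x (hop s x H⁻¹ c).1 ≠ x (s (hop s x H⁻¹ c).1) := by rw [hf1]; exact hc
  have g2 : x (hop s x H⁻¹ (hop s x H⁻¹ c)).1 ≠ x (s (hop s x H⁻¹ (hop s x H⁻¹ c)).1) := by
    rw [hf1]; exact g1
  have g3 : x (hop s x H⁻¹ (hop s x H⁻¹ (hop s x H⁻¹ c))).1 ≠
      x (s (hop s x H⁻¹ (hop s x H⁻¹ (hop s x H⁻¹ c))).1) := by rw [hf1]; exact g2
  have p1 := hP c hc
  have p2 := hP _ g1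
  have p3 := hP _ g2
  have p4 := hP _ g3
  rw [p1] at p2
  rw [p2] at p3
  rw [p3] at p4
  have hce0 : ∀ c : G × (Y → Fin q), (if (c.2 (x c.1) : ℕ) < k then (1 : F) else 0) =
      if (c.2 (x c.1), c.2 (x (s c.1))) ∈ A 0 then 1 else 0 := fun c => by
    simp only [hA0]
  generalize hPd : (c.2 (x c.1), c.2 (x (s c.1))) = P at p1 p2 p3 p4 ⊢
  have q1 : (H⁻¹ P ∈ A 0) ↔ P ∈ A 1 := by rw [← hA1, hinv]
  have q2 : (H⁻¹ (H⁻¹ P) ∈ A 0) ↔ P ∈ A 2 := by rw [← hA1, ← hA2, hinv, hinv]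
  have q3 : (H⁻¹ (H⁻¹ (H⁻¹ P)) ∈ A 0) ↔ P ∈ A 3 := by
    rw [← hA1, ← hA2, ← hA3, hinv, hinv, hinv]
  have q4 := hA4 (H⁻¹ (H⁻¹ (H⁻¹ (H⁻¹ P))))
  rw [hinv, hinv, hinv, hinv] at q4
  fin_cases i
  · refine (hce0 c).trans ?_
    rw [hPd]
    rfl
  · refine (hce0 (hop s x H⁻¹ c)).trans ?_
    rw [p1]
    exact if_congr q1 rfl rfl
  · refine (hce0 (hop s x H⁻¹ (hop s x H⁻¹ c))).trans ?_
    rw [p2]
    exact if_congr q2 rfl rfl
  · refine (hce0 (hop s x H⁻¹ (hop s x H⁻¹ (hop s x H⁻¹ c)))).trans ?_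
    rw [p3]
    exact if_congr q3 rfl rfl
  · change (if ((hop s x H⁻¹ (hop s x H⁻¹ (hop s x H⁻¹ (hop s x H⁻¹ c)))).2
        (x (hop s x H⁻¹ (hop s x H⁻¹ (hop s x H⁻¹ (hop s x H⁻¹ c)))).1) : ℕ) < k
        then (1 : F) else 0) *
      (if ((hop s x H⁻¹ (hop s x H⁻¹ (hop s x H⁻¹ (hop s x H⁻¹ c)))).2
        (x (s (hop s x H⁻¹ (hop s x H⁻¹ (hop s x H⁻¹ (hop s x H⁻¹ c)))).1)) : ℕ) < k
        then (1 : F) else 0) = if P ∈ A 4 then 1 else 0
    rw [if_congr q4 rfl rfl, ← p4]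
    by_cases u1 : ((hop s x H⁻¹ (hop s x H⁻¹ (hop s x H⁻¹ (hop s x H⁻¹ c)))).2
        (x (hop s x H⁻¹ (hop s x H⁻¹ (hop s x H⁻¹ (hop s x H⁻¹ c)))).1) : ℕ) < k
    · by_cases u2 : ((hop s x H⁻¹ (hop s x H⁻¹ (hop s x H⁻¹ (hop s x H⁻¹ c)))).2
        (x (s (hop s x H⁻¹ (hop s x H⁻¹ (hop s x H⁻¹ (hop s x H⁻¹ c)))).1)) : ℕ) < k
      · rw [if_pos u1, if_pos u2, if_pos ⟨u1, u2⟩, one_mul]
      · rw [if_neg u2, mul_zero, if_neg (fun h => u2 h.2)]
    · rw [if_neg u1, zero_mul, if_neg (fun h => u1 h.1)]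

end

theorem ar1 {η N q B R W Gc : ℝ} (hη : 0 < η) (hN : 2 / η ≤ N) (hN0 : 0 ≤ N) (hq : N + 1 ≤ q)
    (hB : 0 ≤ B) (hR : 0 ≤ R) (hW : 0 ≤ W) (r5 : B * (N + 1) ≤ Gc) (r3 : R * (q * q) ≤ Gc * W) :
    B * W + R ≤ η * (Gc * W) := by
  rw [div_le_iff₀ hη] at hN
  have h1 : 2 ≤ η * (N + 1) := by linarith
  have h2 : N + 1 ≤ q * q := by
    have : q * 1 ≤ q * q := mul_le_mul_of_nonneg_left (by linarith) (by linarith)
    linarith
  have h3 : η * (N + 1) ≤ η * (q * q) := mul_le_mul_of_nonneg_left h2 hη.le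
  have h4 : B * 2 ≤ B * (η * (N + 1)) := mul_le_mul_of_nonneg_left h1 hB
  have h5 : η * (B * (N + 1)) ≤ η * Gc := mul_le_mul_of_nonneg_left r5 hη.le
  have h6 : B * 2 ≤ η * Gc := by linarith
  have h7 : B * 2 * W ≤ η * Gc * W := mul_le_mul_of_nonneg_right h6 hW
  have h8 : R * 2 ≤ R * (η * (q * q)) := mul_le_mul_of_nonneg_left (h1.trans h3) hR
  have h9 : η * (R * (q * q)) ≤ η * (Gc * W) := mul_le_mul_of_nonneg_left r3 hη.le
  linarith

theorem SY_d {F : Type u} [Field F] {i j : Vr} {a : F} (h : (SY F).d i j = some a) :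
    ∃ i' : Fin 5, i = Vr.E i' ∧ j = Vr.n i' ∧ a = 1 := by
  cases i with
  | E i' =>
    cases j with
    | n j' =>
      have h2 : (if i' = j' then some (1 : F) else none) = some a := h
      by_cases hij : i' = j'
      · rw [if_pos hij] at h2
        exact ⟨i', rfl, by rw [hij], (Option.some.inj h2).symm⟩
      · rw [if_neg hij] at h2
        exact absurd h2 (by simp)
    | _ => exact absurd (show (none : Option F) = some a from h) (by simp)
  | _ => exact absurd (show (none : Option F) = some a from h) (by simp)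

/-- row UP -/
theorem st_UP (F : Type u) [Field F] (h1 : ST_FO) (h2 : ST_HH) (h3 : ST_CF) : ST_UP F := by
  intro η hη
  obtain ⟨N, hN⟩ := exists_nat_ge (2 / η)
  obtain ⟨q, k, hq, hk, hqk, hr⟩ := h3 (N + 1)
  obtain ⟨H, A, hA0, hA1, hA2, hA3, hA4, hdis, hcard⟩ := h2 q k hk hqk
  obtain ⟨G, Y, iG, dG, iY, dY, nG, s, t, x, bad, hbad, hx⟩ := h1 (N + 1) (Nat.succ_pos _)
  have hq0 : 0 < q := by omega
  haveI : Nonempty (Fin q) := ⟨⟨0, hq0⟩⟩
  set fs : G × (Y → Fin q) → G × (Y → Fin q) := fun c => (s c.1, c.2) with hfs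
  set fs' : G × (Y → Fin q) → G × (Y → Fin q) := fun c => (s⁻¹ c.1, c.2) with hfs'
  set ft : G × (Y → Fin q) → G × (Y → Fin q) := fun c => (t c.1, c.2) with hft
  set ft' : G × (Y → Fin q) → G × (Y → Fin q) := fun c => (t⁻¹ c.1, c.2) with hft'
  set fk : G × (Y → Fin q) → G × (Y → Fin q) :=
    fun c => (s⁻¹ (t (s (t⁻¹ c.1))), c.2) with hfk
  set fh : G × (Y → Fin q) → G × (Y → Fin q) := hop s x H with hfh
  set fh' : G × (Y → Fin q) → G × (Y → Fin q) := hop s x H⁻¹ with hfh'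
  set ce : G × (Y → Fin q) → F := fun c => if (c.2 (x c.1) : ℕ) < k then 1 else 0 with hce
  have a1 : ∀ c, fs (fs' c) = c := fun c => by simp [hfs, hfs']
  have a2 : ∀ c, fs' (fs c) = c := fun c => by simp [hfs, hfs']
  have a3 : ∀ c, ft (ft' c) = c := fun c => by simp [hft, hft']
  have a4 : ∀ c, ft' (ft c) = c := fun c => by simp [hft, hft']
  have a5 : ∀ c, fh (fh' c) = c := fun c => hop_inv s x H c
  have a6 : ∀ c, fh' (fh c) = c := fun c => hop_inv' s x H c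
  have a7 : ∀ c, ce c * ce c = ce c := fun c => by
    simp only [hce]
    split_ifs <;> simp
  have a8 : ∀ c, fs (fk (ft c)) = ft (fs c) := fun c => by simp [hfs, hft, hfk]
  have hcE : ∀ c : G × (Y → Fin q), x c.1 ≠ x (s c.1) → ∀ i, cE fs fh' ce i c =
      if (c.2 (x c.1), c.2 (x (s c.1))) ∈ A i then 1 else 0 :=
    fun c hc i => cE_eq s x H A k hA0 hA1 hA2 hA3 hA4 c hc i
  set bd : Finset (G × (Y → Fin q)) := Finset.univ.filter fun c => c.1 ∈ bad ∨
    (x c.1 ≠ x (s c.1) ∧ (c.2 (x c.1), c.2 (x (s c.1))) ∈ Finset.univ \ Finset.univ.biUnion A)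
    with hbd
  have hrel : ∀ c, c ∉ bd → ∀ p ∈ pr, sg fs fs' ft ft' fk fh fh' p.1
      (sg fs fs' ft ft' fk fh fh' p.2.1 c) = sg fs fs' ft ft' fk fh fh' p.2.2 c ∧
      ch fs fs' fh' ce p.1 (sg fs fs' ft ft' fk fh fh' p.2.1 c) * ch fs fs' fh' ce p.2.1 c =
      ch fs fs' fh' ce p.2.2 c := by
    intro c hc
    simp only [hbd, Finset.mem_filter, Finset.mem_univ, true_and, not_or, not_and] at hc
    obtain ⟨hc1, hc2⟩ := hc
    obtain ⟨x1, x2, x3, x4, x5, x6, x7, x8⟩ := hx c.1 hc1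
    have hc3 := hc2 x1
    simp only [Finset.mem_sdiff, Finset.mem_univ, true_and, not_not, Finset.mem_biUnion] at hc3
    obtain ⟨i0, hi0⟩ := hc3
    have hE := hcE c x1
    refine rel_all fs fs' ft ft' fk fh fh' ce c a1 a2 a3 a4 a5 a6 a7 a8 ?_ ?_ ?_ ?_ ?_ ?_ ?_ ?_
    · exact Prod.ext x8.symm rfl
    · have e1 : fh c = (c.1, Function.update (Function.update c.2 (x c.1)
          (H (c.2 (x c.1), c.2 (x (s c.1)))).1) (x (s c.1))
          (H (c.2 (x c.1), c.2 (x (s c.1)))).2) := by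
        simp only [hfh, hop]
        rw [if_neg x1]
      have e2 : fh (fs (ft c)) = (s (t c.1), Function.update (Function.update c.2 (x c.1)
          (H (c.2 (x c.1), c.2 (x (s c.1)))).1) (x (s c.1))
          (H (c.2 (x c.1), c.2 (x (s c.1)))).2) := by
        simp only [hfh, hop, hfs, hft, x4, x5]
        rw [if_neg x1]
      rw [e1, e2]
    · simp only [hce, hfs, hft, x4]
    · simp only [hce, hfs', hft, x6]
    · simp only [hce, hfs', hfk, x7]
    · have e1 : (fh c).1 = c.1 := hop_fst s x H c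
      have e2 : (fh c).2 (x (s⁻¹ c.1)) = c.2 (x (s⁻¹ c.1)) :=
        hop_other s x H c (Ne.symm x2) (Ne.symm x3)
      simp only [hce, hfs', e1, e2]
    · intro i j hij
      rw [hE, hE]
      have hd : (c.2 (x c.1), c.2 (x (s c.1))) ∈ A i → (c.2 (x c.1), c.2 (x (s c.1))) ∉ A j :=
        fun h => Finset.disjoint_left.1 (hdis i j hij) h
      split_ifs with u1 u2
      · exact absurd u2 (hd u1)
      · simp
      · simp
      · simp
    · have h0 : cE fs fh' ce i0 c - 1 = 0 := by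
        rw [hE, if_pos hi0, sub_self]
      fin_cases i0 <;> (simp only [Fin.reduceFinMk, Fin.zero_eta, Fin.mk_one] at h0; rw [h0]; ring)
  -- the matrices
  set Z : Vr → Matrix (G × (Y → Fin q)) (G × (Y → Fin q)) F := fun v =>
    mt (sg fs fs' ft ft' fk fh fh' v) (ch fs fs' fh' ce v) with hZ
  set e : (G × (Y → Fin q)) ≃ Fin (Fintype.card (G × (Y → Fin q))) := Fintype.equivFin _ with he
  have hb0 : (0 : ℝ) < Fintype.card (G × (Y → Fin q)) := by
    exact_mod_cast Fintype.card_pos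
  have hbW : (Fintype.card (G × (Y → Fin q)) : ℝ) =
      (Fintype.card G : ℝ) * Fintype.card (Y → Fin q) := by
    rw [Fintype.card_prod]
    push_cast
    ring
  have hqR : (0 : ℝ) < q := by exact_mod_cast hq0
  refine ⟨Fintype.card (G × (Y → Fin q)), Fintype.card_pos,
    fun v => (Z v).submatrix e.symm e.symm, ?_, ?_, bd.map e.toEmbedding, ?_, ?_, ?_⟩
  · intro i a hia
    cases i <;> simp only [SY, Option.some.injEq, reduceCtorEq] at hia
    · subst hia
      have : Z Vr.one = 1 := mt_one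
      simp only [this, one_smul]
      exact Matrix.submatrix_one_equiv _
    · subst hia
      have : Z Vr.zero = 0 := mt_zero _
      simp only [this, zero_smul]
      rfl
  · set T : Finset (G × (Y → Fin q)) := Finset.univ.filter fun c => (c.2 (x c.1) : ℕ) < k with hT
    have r1 : ((Z Vr.e).submatrix e.symm e.symm).rank ≤ (T.map e.toEmbedding).card := by
      refine rank_le_cols _ _ ?_
      intro j hj i
      have hj' : e.symm j ∉ T := by
        intro h
        apply hj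
        rw [Finset.mem_map]
        exact ⟨e.symm j, h, by simp⟩
      simp only [hT, Finset.mem_filter, Finset.mem_univ, true_and] at hj'
      simp only [Matrix.submatrix_apply, hZ, mt, ch, hce]
      rw [if_neg hj']
      simp
    rw [Finset.card_map] at r1
    have r2 : T.card * q ≤ Fintype.card G * (k * Fintype.card (Y → Fin q)) := by
      rw [hT, card_prod, Finset.sum_mul]
      refine (Finset.sum_le_sum fun g _ => cnt1 (x g) k hk).trans (le_of_eq ?_)
      rw [Finset.sum_const, Finset.card_univ, smul_eq_mul]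
    have r3 : (T.card : ℝ) * q ≤ (Fintype.card G : ℝ) * (k * Fintype.card (Y → Fin q)) := by
      exact_mod_cast r2
    have r4 : (((Z Vr.e).submatrix e.symm e.symm).rank : ℝ) ≤ T.card := by exact_mod_cast r1
    refine r4.trans ?_
    have r5 : (T.card : ℝ) ≤ (k / q : ℝ) * (Fintype.card (G × (Y → Fin q)) : ℝ) := by
      rw [div_mul_eq_mul_div, le_div_iff₀ hqR, hbW]
      refine r3.trans (le_of_eq ?_)
      ring
    exact r5.trans (mul_le_mul_of_nonneg_right hr hb0.le)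
  · rw [Finset.card_map]
    have r1 : bd.card ≤ ∑ g : G, ((if g ∈ bad then Fintype.card (Y → Fin q) else 0) +
        (Finset.univ.filter fun y : Y → Fin q => x g ≠ x (s g) ∧
          (y (x g), y (x (s g))) ∈ Finset.univ \ Finset.univ.biUnion A).card) := by
      rw [hbd, card_prod]
      refine Finset.sum_le_sum fun g _ => ?_
      by_cases hg : g ∈ bad
      · rw [if_pos hg]
        exact le_trans (Finset.card_le_univ _) (Nat.le_add_right _ _)
      · rw [if_neg hg, zero_add]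
        refine Finset.card_le_card fun y hy => ?_
        simp only [Finset.mem_filter, Finset.mem_univ, true_and, hg, false_or] at hy ⊢
        exact hy
    rw [Finset.sum_add_distrib, Finset.sum_ite_mem, Finset.univ_inter, Finset.sum_const,
      smul_eq_mul] at r1
    have r2 : (∑ g : G, (Finset.univ.filter fun y : Y → Fin q => x g ≠ x (s g) ∧
          (y (x g), y (x (s g))) ∈ Finset.univ \ Finset.univ.biUnion A).card) * (q * q) ≤
        Fintype.card G * Fintype.card (Y → Fin q) := by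
      rw [Finset.sum_mul]
      refine (Finset.sum_le_sum (g := fun _ => Fintype.card (Y → Fin q)) fun g _ => ?_).trans
        (le_of_eq (by rw [Finset.sum_const, Finset.card_univ, smul_eq_mul]))
      by_cases hg : x g = x (s g)
      · simp [hg]
      · have h5 := cnt2 (x g) (x (s g)) hg (Finset.univ \ Finset.univ.biUnion A)
        have h6 : (Finset.univ.filter fun y : Y → Fin q => x g ≠ x (s g) ∧
          (y (x g), y (x (s g))) ∈ Finset.univ \ Finset.univ.biUnion A) =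
          (Finset.univ.filter fun y : Y → Fin q =>
          (y (x g), y (x (s g))) ∈ Finset.univ \ Finset.univ.biUnion A) := by
          refine Finset.filter_congr fun y _ => ?_
          simp only [ne_eq, hg, not_false_eq_true, true_and]
        rw [h6]
        exact h5.trans (le_trans (Nat.mul_le_mul_right _ hcard) (le_of_eq (one_mul _)))
    set R := ∑ g : G, (Finset.univ.filter fun y : Y → Fin q => x g ≠ x (s g) ∧
          (y (x g), y (x (s g))) ∈ Finset.univ \ Finset.univ.biUnion A).card with hR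
    have r3 : (R : ℝ) * (q * q) ≤ Fintype.card (G × (Y → Fin q)) := by
      rw [hbW]
      exact_mod_cast r2
    have r4 : (bd.card : ℝ) ≤ bad.card * Fintype.card (Y → Fin q) + R := by exact_mod_cast r1
    have r5 : (bad.card : ℝ) * (N + 1) ≤ Fintype.card G := by exact_mod_cast hbad
    rw [hbW] at r3 ⊢
    exact r4.trans (ar1 hη hN (Nat.cast_nonneg N) (by exact_mod_cast hq) (Nat.cast_nonneg _)
      (Nat.cast_nonneg _) (Nat.cast_nonneg _) r5 r3)
  · intro m c hc a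
    have hc' : e.symm c ∉ bd := by
      intro h
      apply hc
      rw [Finset.mem_map]
      exact ⟨e.symm c, h, by simp⟩
    have h5 := hrel _ hc' (pr.get m) (List.get_mem _ _)
    change ((Z (pr.get m).1).submatrix e.symm e.symm *
      (Z (pr.get m).2.1).submatrix e.symm e.symm) a c =
      (Z (pr.get m).2.2).submatrix e.symm e.symm a c
    rw [Matrix.submatrix_mul_equiv]
    simp only [Matrix.submatrix_apply, hZ]
    rw [mt_mul, h5.1, h5.2]
    rfl
  · intro i j a _ hd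
    obtain ⟨i', rfl, rfl, rfl⟩ := SY_d hd
    rw [one_smul]
    ext u v
    simp only [Matrix.sub_apply, Matrix.submatrix_apply, hZ, mt, sg, ch, Matrix.one_apply,
      EmbeddingLike.apply_eq_iff_eq]
    split_ifs <;> simp

end Pool.Agent.Helper22.FR
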